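import Mathlib
import Pool.Agent.Lib.MP_d87a8f_pr.U.Defs

/-!
The entropic time and the maximum over subgroups.
-/

namespace Pool.Agent.Lib.MP_d87a8f_pr

/-- The entropic time: the least `t ≥ 0` with `k * H (t / k) = log N`, where `H s` is the entropy
of the Poisson law with mean `s`. -/
noncomputable def entTime (k N : ℕ) : ℝ :=
  sInf {t : ℝ | 0 ≤ t ∧ (k : ℝ) * poissonEntropy (t / k) = Real.log N}

/-- The maximum of `log |G| / log k` and of the entropic times of `(k * [G : H], |H^ab|)` over all
subgroups `H` of `G`. -/
noncomputable def starTime (G : Type) [Group G] [Fintype G] (k : ℕ) : ℝ :=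
  max (Real.log (Fintype.card G) / Real.log k)
    (⨆ H : Subgroup G, entTime (k * H.index) (Nat.card (Abelianization H)))

end Pool.Agent.Lib.MP_d87a8f_pr
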