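import Mathlib
import Pool.Agent.Lib.MP_d87a8f_pr.U.Defs

/-!
Definitions for the cutoff time in terms of subgroups.
-/

namespace Pool.Agent.Lib.MP_d87a8f_pr

/-- The least `l` with `|G| ≤ k ^ l` and `|H^ab| * l ^ l ≤ (k * [G : H]) ^ l` for all subgroups
`H` of `G`. -/
noncomputable def subTime (G : Type) [Group G] [Fintype G] (k : ℕ) : ℕ :=
  sInf {l : ℕ | Fintype.card G ≤ k ^ l ∧
    ∀ H : Subgroup G, Nat.card (Abelianization H) * l ^ l ≤ (k * H.index) ^ l}

end Pool.Agent.Lib.MP_d87a8f_pr
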