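import Mathlib
import Pool.Agent.Lib.MP_d87a8f_pr.P.Defs
import Pool.Agent.Lib.MP_d87a8f_pr.Q.LowLog

/-!
The lower bound on the cutoff time given by a subgroup.
-/

namespace Pool.Agent.Lib.MP_d87a8f_pr.P

open Finset Pool.Agent.Lib.MP_d87a8f_pr.U Pool.Agent.Lib.MP_d87a8f_pr.Q

section
variable {G : Type} [Group G] (H : Subgroup G)

theorem mem_out (c : G) : c * ((c⁻¹ : G) : G ⧸ H).out ∈ H := by
  have h : (((c⁻¹ : G) : G ⧸ H)) = ((((c⁻¹ : G) : G ⧸ H).out : G) : G ⧸ H) :=
    (QuotientGroup.out_eq' _).symm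
  have := QuotientGroup.eq.mp h
  rwa [inv_inv] at this

/-- the `H` part of an element -/
noncomputable def hp (c : G) : H := ⟨c * ((c⁻¹ : G) : G ⧸ H).out, mem_out H c⟩

theorem mem_edge (y : G ⧸ H) (g : G) : y.out⁻¹ * g * (g⁻¹ • y).out ∈ H := by
  have h := mem_out H (y.out⁻¹ * g)
  have e : (((y.out⁻¹ * g)⁻¹ : G) : G ⧸ H) = g⁻¹ • y := by
    rw [mul_inv_rev, inv_inv]
    conv_rhs => rw [← QuotientGroup.out_eq' y]
    rfl
  rwa [e] at h

/-- the label of an edge of the Schreier graph -/
noncomputable def edge (y : G ⧸ H) (g : G) : H := ⟨y.out⁻¹ * g * (g⁻¹ • y).out, mem_edge H y g⟩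

theorem hp_mul (c g : G) : hp H (c * g) = hp H c * edge H ((c⁻¹ : G) : G ⧸ H) g := by
  apply Subtype.ext
  have e : (((c * g)⁻¹ : G) : G ⧸ H) = g⁻¹ • ((c⁻¹ : G) : G ⧸ H) := by
    rw [mul_inv_rev]; rfl
  simp only [hp, edge, Subgroup.coe_mul, e]
  group

theorem of_hp_prod {m : ℕ} (g : Fin m → G) (j : Fin (m + 1)) :
    Abelianization.of (hp H (Fin.partialProd g j)) = Abelianization.of (hp H 1) *
      ∏ i ∈ univ.filter (fun i : Fin m => i.val < j.val), Abelianization.of
        (edge H (((Fin.partialProd g i.castSucc)⁻¹ : G) : G ⧸ H) (g i)) := by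
  induction j using Fin.induction with
  | zero => simp
  | succ j ih =>
    rw [Fin.partialProd_succ, hp_mul, map_mul, ih, mul_assoc]
    congr 1
    have e : univ.filter (fun i : Fin m => i.val < j.succ.val) =
        insert j (univ.filter (fun i : Fin m => i.val < j.castSucc.val)) := by
      ext i
      simp only [mem_filter, mem_univ, true_and, mem_insert, Fin.val_succ, Fin.val_castSucc,
        Fin.ext_iff]
      omega
    rw [e, Finset.prod_insert (by simp), mul_comm]

end

variable {G : Type} [Group G] [Fintype G] [DecidableEq G] {m : ℕ}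

omit [DecidableEq G] in
theorem card_fibre (H : Subgroup G) (y : G ⧸ H) (a : Abelianization H) :
    Set.ncard {x : G | ((x⁻¹ : G) : G ⧸ H) = y ∧ Abelianization.of (hp H x) = a} ≤
      Nat.card (commutator H) := by
  classical
  rcases Set.eq_empty_or_nonempty
    {x : G | ((x⁻¹ : G) : G ⧸ H) = y ∧ Abelianization.of (hp H x) = a} with h | ⟨x0, h0⟩
  · rw [h]; simp
  · rw [← Set.ncard_univ]
    refine Set.ncard_le_ncard_of_injOn (fun x => if h : hp H x * (hp H x0)⁻¹ ∈ commutator H
      then (⟨_, h⟩ : commutator H) else 1) (fun _ _ => Set.mem_univ _) ?_ (Set.toFinite _)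
    have key : ∀ x ∈ {x : G | ((x⁻¹ : G) : G ⧸ H) = y ∧ Abelianization.of (hp H x) = a},
        hp H x * (hp H x0)⁻¹ ∈ commutator H := by
      intro x hx
      rw [← Abelianization.ker_of, MonoidHom.mem_ker, map_mul, map_inv, hx.2, h0.2, mul_inv_cancel]
    intro x hx x' hx' he
    simp only [dif_pos (key x hx), dif_pos (key x' hx')] at he
    have h1 : hp H x = hp H x' := mul_right_cancel (congrArg Subtype.val he)
    have h2 := congrArg Subtype.val h1
    simp only [hp, hx.1, hx'.1] at h2
    exact mul_right_cancel h2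

theorem vals_le_sub (H : Subgroup G) (g : Fin m → G) :
    (vals g).card ≤ H.index ^ (m + 1) * Nat.card (commutator H) := by
  classical
  let F : (G ⧸ H) × (Fin m → G ⧸ H) → Finset G := fun p =>
    univ.filter (fun x : G => ((x⁻¹ : G) : G ⧸ H) = p.1 ∧ Abelianization.of (hp H x) =
      Abelianization.of (hp H 1) * ∏ a, Abelianization.of (edge H (p.2 a) (g a)))
  have h1 : vals g ⊆ univ.biUnion F := by
    intro x hx
    obtain ⟨s, -, rfl⟩ := mem_image.1 hx
    refine mem_biUnion.2 ⟨(_, fun a => (((Fin.partialProd (fun j => g (s j))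
      (s.symm a).castSucc)⁻¹ : G) : G ⧸ H)), mem_univ _, mem_filter.2 ⟨mem_univ _, rfl, ?_⟩⟩
    rw [← partialProd_last, of_hp_prod]
    congr 1
    have e : univ.filter (fun i : Fin m => i.val < (Fin.last m).val) = univ := by
      ext i; simp
    rw [e]
    conv_rhs => rw [← Equiv.prod_comp s]
    simp
  refine (card_le_card h1).trans (card_biUnion_le.trans ?_)
  have h2 : ∀ p, (F p).card ≤ Nat.card (commutator H) := by
    intro p
    refine le_trans (le_of_eq ?_) (card_fibre H p.1
      (Abelianization.of (hp H 1) * ∏ a, Abelianization.of (edge H (p.2 a) (g a))))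
    rw [Set.ncard_eq_toFinset_card']
    simp [F]
  refine (Finset.sum_le_card_nsmul _ _ _ (fun p _ => h2 p)).trans (le_of_eq ?_)
  rw [card_univ, smul_eq_mul, Fintype.card_prod, Fintype.card_fun, Fintype.card_fin,
    Subgroup.index, Nat.card_eq_fintype_card (α := G ⧸ H), pow_succ']

omit [DecidableEq G] in
theorem card_eq_three (H : Subgroup G) :
    Fintype.card G = H.index * (Nat.card (Abelianization H) * Nat.card (commutator H)) := by
  have h1 := H.index_mul_card
  have h2 : Nat.card (Abelianization H) * Nat.card (commutator H) = Nat.card H :=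
    (commutator H).index_mul_card
  rw [h2, h1, Nat.card_eq_fintype_card]

/-- the bound given by a subgroup -/
theorem sub_low {k T : ℕ} (hk : 0 < k) (h : psi G k T ≤ 0) (H : Subgroup G) :
    Nat.card (Abelianization H) * T.factorial ≤ (k * H.index) ^ T := by
  have hi : 0 < H.index := Nat.pos_of_ne_zero H.index_ne_zero_of_finite
  have hc : 0 < Nat.card (commutator H) := Nat.card_pos
  have ha : 0 < Nat.card (Abelianization H) := Nat.card_pos
  have h1 := meanLog_ge_of (G := G) (m := T) hk
    ((H.index ^ (T + 1) * Nat.card (commutator H) : ℕ) : ℝ)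
    (fun g => by exact_mod_cast vals_le_sub H g)
  unfold psi at h
  rw [card_eq_three H] at h
  generalize H.index = i at *
  generalize Nat.card (commutator H) = c at *
  generalize Nat.card (Abelianization H) = a at *
  have hi' : (0 : ℝ) < i := by exact_mod_cast hi
  have hc' : (0 : ℝ) < c := by exact_mod_cast hc
  have ha' : (0 : ℝ) < a := by exact_mod_cast ha
  have hk' : (0 : ℝ) < k := by exact_mod_cast hk
  have hF : (0 : ℝ) < T.factorial := by exact_mod_cast T.factorial_pos
  push_cast at h h1
  rw [Real.log_mul hi'.ne' (by positivity), Real.log_mul ha'.ne' hc'.ne'] at h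
  rw [Real.log_mul (by positivity) hc'.ne', Real.log_pow] at h1
  have h2 : Real.log ((a : ℝ) * T.factorial) ≤ Real.log (((k : ℝ) * i) ^ T) := by
    rw [Real.log_mul ha'.ne' hF.ne', Real.log_pow, Real.log_mul hk'.ne' hi'.ne']
    push_cast at h1
    nlinarith
  have h3 := (Real.log_le_log_iff (by positivity) (by positivity)).1 h2
  exact_mod_cast h3

end Pool.Agent.Lib.MP_d87a8f_pr.P
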