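import Mathlib
import Pool.Agent.Lib.MP_d87a8f_pr.P.Low
import Pool.Agent.Lib.MP_d87a8f_pr.Q.Main

/-!
The cutoff time in terms of subgroups, from a bound on the number of representations.
-/

namespace Pool.Agent.Lib.MP_d87a8f_pr.P

open Finset Filter Topology Pool.Agent.Lib.MP_d87a8f_pr.U Pool.Agent.Lib.MP_d87a8f_pr.Q

/-- the condition that defines `subTime` -/
def SubCond (G : Type) [Group G] [Fintype G] (k l : ℕ) : Prop :=
  Fintype.card G ≤ k ^ l ∧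
    ∀ H : Subgroup G, Nat.card (Abelianization H) * l ^ l ≤ (k * H.index) ^ l

/-- the group theoretic input for a class `C` of groups -/
def GB (C : ∀ (G : Type) [Group G], Prop) : Prop :=
  ∀ n : ℕ, ∃ l0 : ℕ, ∀ (G : Type) [Group G] [Fintype G], C G → ∀ l d M : ℕ, l0 ≤ l →
    Fintype.card G ≤ l ^ ((n + 1) * l) → 1 ≤ d → d ^ (n + 1) ≤ l ^ n →
    (∀ H : Subgroup G, H.index ≤ d → Nat.card (Abelianization H) ≤ M) →
    lowDim G d ≤ 3 ^ l * M

theorem fin_sub_low (ε : ℝ) (hε : 0 < ε) (hε1 : ε < 1) :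
    ∃ M K : ℕ, ∀ (G : Type) [Group G] [Fintype G] [DecidableEq G] (k T l : ℕ),
      M ≤ T → K * T ≤ k → (1 + ε) * T ≤ l → l ≤ 3 * T → psi G k T ≤ 0 → SubCond G k l := by
  obtain ⟨M, K, h⟩ := low_term ε hε hε1
  obtain ⟨M', K', h'⟩ := fin_deg_low ε hε hε1
  refine ⟨M + M' + 1, K + K' + 1, fun G _ _ _ k T l hM hK hl h3 hp => ?_⟩
  have hk : 0 < k := lt_of_lt_of_le (Nat.mul_pos (by omega) (by omega)) hK
  have hK1 : K * T ≤ k := le_trans (Nat.mul_le_mul_right _ (by omega)) hK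
  have hK2 : K' * T ≤ k := le_trans (Nat.mul_le_mul_right _ (by omega)) hK
  refine ⟨(h' G k T l (by omega) hK2 hl h3 hp).1, fun H => ?_⟩
  have hi : 0 < H.index := Nat.pos_of_ne_zero H.index_ne_zero_of_finite
  have h1 := h (k * H.index) T l 1 (Nat.card (Abelianization H)) (by omega)
    (hK1.trans (Nat.le_mul_of_pos_right _ hi)) hl h3 le_rfl
    ((sub_low hk hp H).trans (Nat.le_mul_of_pos_right _ (by positivity)))
  simpa using h1

theorem nat_big {k l0 j n d W : ℕ} (hW : W ≤ k ^ l0) (hj : l0 + j ≤ (n + 1) * j)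
    (hk : 0 < k) (hA : (l0 + j) ^ (n + 1) ≤ k * d ^ (n + 1)) :
    W * (l0 + j) ^ (l0 + j) ≤ (k * d ^ 1) ^ (l0 + j) := by
  generalize hl : l0 + j = l at hj hA ⊢
  have h1 : (l ^ l) ^ (n + 1) ≤ (k ^ j * d ^ l) ^ (n + 1) := by
    calc (l ^ l) ^ (n + 1) = (l ^ (n + 1)) ^ l := by rw [← pow_mul, ← pow_mul, mul_comm]
      _ ≤ (k * d ^ (n + 1)) ^ l := Nat.pow_le_pow_left hA l
      _ = k ^ l * (d ^ l) ^ (n + 1) := by rw [mul_pow, ← pow_mul, ← pow_mul, mul_comm l]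
      _ ≤ k ^ ((n + 1) * j) * (d ^ l) ^ (n + 1) :=
          Nat.mul_le_mul_right _ (Nat.pow_le_pow_right hk hj)
      _ = (k ^ j * d ^ l) ^ (n + 1) := by rw [mul_pow, ← pow_mul k j, mul_comm j]
  have h2 : l ^ l ≤ k ^ j * d ^ l := (Nat.pow_le_pow_iff_left (by omega)).1 h1
  calc W * l ^ l ≤ k ^ l0 * (k ^ j * d ^ l) := Nat.mul_le_mul hW h2
    _ = (k * d ^ 1) ^ l := by rw [pow_one, mul_pow, ← mul_assoc, ← pow_add, hl]

theorem nat_small {y l0 j n W M : ℕ} (hl0 : 0 < l0) (hW : W ≤ 3 ^ (l0 + j) * M)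
    (hM : M * l0 ^ l0 ≤ y ^ l0) (hj : l0 + j ≤ (n + 1) * j) (h3 : l0 + j ≤ 3 * l0)
    (hy : 9 ^ (n + 1) * (l0 + j) ≤ y) : W * (l0 + j) ^ (l0 + j) ≤ y ^ (l0 + j) := by
  generalize hl : l0 + j = l at hW hj h3 hy ⊢
  have h1 : l ^ l0 ≤ 3 ^ l * l0 ^ l0 := by
    calc l ^ l0 ≤ (3 * l0) ^ l0 := Nat.pow_le_pow_left h3 _
      _ = 3 ^ l0 * l0 ^ l0 := mul_pow _ _ _
      _ ≤ 3 ^ l * l0 ^ l0 := Nat.mul_le_mul_right _ (Nat.pow_le_pow_right (by norm_num) (by omega))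
  have h2 : 9 ^ l * l ^ j ≤ y ^ j := by
    calc 9 ^ l * l ^ j ≤ 9 ^ ((n + 1) * j) * l ^ j :=
          Nat.mul_le_mul_right _ (Nat.pow_le_pow_right (by norm_num) hj)
      _ = (9 ^ (n + 1) * l) ^ j := by rw [mul_pow, pow_mul]
      _ ≤ y ^ j := Nat.pow_le_pow_left hy j
  have e : (9 : ℕ) ^ l = 3 ^ l * 3 ^ l := by rw [← mul_pow]; norm_num
  have e1 : l ^ l = l ^ l0 * l ^ j := by rw [← pow_add, hl]
  have e2 : y ^ l = y ^ l0 * y ^ j := by rw [← pow_add, hl]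
  calc W * l ^ l = W * l ^ l0 * l ^ j := by rw [e1, mul_assoc]
    _ ≤ (3 ^ l * M) * (3 ^ l * l0 ^ l0) * l ^ j :=
        Nat.mul_le_mul_right _ (Nat.mul_le_mul hW h1)
    _ = (M * l0 ^ l0) * (9 ^ l * l ^ j) := by rw [e]; ring
    _ ≤ y ^ l0 * y ^ j := Nat.mul_le_mul hM h2
    _ = y ^ l := e2.symm

theorem fin_sub_deg {C : ∀ (G : Type) [Group G], Prop} (hC : GB C) (ε : ℝ) (hε : 0 < ε) :
    ∃ M K : ℕ, ∀ (G : Type) [Group G] [Fintype G], C G → ∀ k l0 l : ℕ,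
      M ≤ l0 → K * l0 ≤ k → (1 + ε) * l0 ≤ l → l ≤ 3 * l0 → SubCond G k l0 → DegCond 1 G k l := by
  obtain ⟨n, hn⟩ := exists_nat_ge (3 / ε)
  rw [div_le_iff₀ hε] at hn
  obtain ⟨M, hM⟩ := hC n
  refine ⟨M + 1, 3 * 9 ^ (n + 1), fun G _ _ hG k l0 l h0 hK hl h3 hS => ?_⟩
  classical
  have hl0 : 0 < l0 := by omega
  have hl0' : (0 : ℝ) < l0 := by exact_mod_cast hl0
  have hle : l0 ≤ l := by
    have : (l0 : ℝ) ≤ l := by nlinarith
    exact_mod_cast this
  obtain ⟨j, rfl⟩ := Nat.exists_eq_add_of_le hle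
  have hj : l0 + j ≤ (n + 1) * j := by
    have h1 : ε * l0 ≤ j := by push_cast at hl; linarith
    have h2 : (0 : ℝ) ≤ n := Nat.cast_nonneg _
    have h4 : (l0 : ℝ) ≤ n * j := by nlinarith [mul_le_mul_of_nonneg_left h1 h2]
    have h5 : l0 ≤ n * j := by exact_mod_cast h4
    nlinarith
  have hy : 9 ^ (n + 1) * (l0 + j) ≤ k := by
    calc 9 ^ (n + 1) * (l0 + j) ≤ 9 ^ (n + 1) * (3 * l0) := Nat.mul_le_mul_left _ h3
      _ = 3 * 9 ^ (n + 1) * l0 := by ring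
      _ ≤ k := hK
  have hlk : l0 + j ≤ k := le_trans (Nat.le_mul_of_pos_left _ (by positivity)) hy
  have hk : 0 < k := by omega
  refine ⟨hS.1.trans (Nat.pow_le_pow_right hk (by omega)), fun d hd => ?_⟩
  by_cases hA : (l0 + j) ^ (n + 1) ≤ k * d ^ (n + 1)
  · exact nat_big ((lowDim_le_card d).trans hS.1) hj hk hA
  · push Not at hA
    have hd1 : d ^ (n + 1) ≤ (l0 + j) ^ n := by
      have h1 : (l0 + j) * d ^ (n + 1) < (l0 + j) * (l0 + j) ^ n := by
        calc (l0 + j) * d ^ (n + 1) ≤ k * d ^ (n + 1) := Nat.mul_le_mul_right _ hlk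
          _ < (l0 + j) ^ (n + 1) := hA
          _ = (l0 + j) * (l0 + j) ^ n := pow_succ' _ _
      exact (Nat.lt_of_mul_lt_mul_left h1).le
    have hk1 : k ≤ (l0 + j) ^ (n + 1) :=
      le_trans (Nat.le_mul_of_pos_right _ (by positivity)) hA.le
    have hcard : Fintype.card G ≤ (l0 + j) ^ ((n + 1) * (l0 + j)) := by
      calc Fintype.card G ≤ k ^ l0 := hS.1
        _ ≤ k ^ (l0 + j) := Nat.pow_le_pow_right hk (by omega)
        _ ≤ ((l0 + j) ^ (n + 1)) ^ (l0 + j) := Nat.pow_le_pow_left hk1 _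
        _ = _ := by rw [← pow_mul]
    have hW := hM G hG (l0 + j) d ((k * d) ^ l0 / l0 ^ l0) (by omega) hcard hd hd1 (fun H hH => by
      rw [Nat.le_div_iff_mul_le (by positivity)]
      exact (hS.2 H).trans (Nat.pow_le_pow_left (Nat.mul_le_mul_left _ hH) _))
    rw [pow_one]
    exact nat_small hl0 hW (Nat.div_mul_le_self _ _) hj h3
      (hy.trans (Nat.le_mul_of_pos_right _ hd))

variable (G : ℕ → Type) [∀ n, Group (G n)] [∀ n, Fintype (G n)] [∀ n, DecidableEq (G n)]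
  (k : ℕ → ℕ)

theorem sub_le_cut
    (h1 : Tendsto (fun n => (k n : ℝ) / Real.log (Fintype.card (G n))) atTop atTop)
    (h2 : Tendsto (fun n => Real.log (k n) / Real.log (Fintype.card (G n))) atTop (𝓝 0))
    (ε : ℝ) (hε : 0 < ε) :
    ∀ᶠ n in atTop, SubCond (G n) (k n) (subTime (G n) (k n)) ∧
      (subTime (G n) (k n) : ℝ) ≤ (1 + ε) * cutTime (G n) (k n) := by
  obtain ⟨e, he, he1, M', hM'⟩ := exists_between_nat ε hε
  obtain ⟨M, K, hMK⟩ := fin_sub_low e he he1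
  filter_upwards [ev_spec G k h1 h2 (max M M') K] with n ⟨_, a1, a2, a3, _⟩
  obtain ⟨l, b1, b2, b3⟩ := hM' _ (le_trans (le_max_right _ _) a1)
  have h := hMK (G n) (k n) _ l (le_trans (le_max_left _ _) a1) a2 b1 b2 a3
  have hle : subTime (G n) (k n) ≤ l := Nat.sInf_le (s := {l : ℕ | SubCond (G n) (k n) l}) h
  exact ⟨Nat.sInf_mem (s := {l : ℕ | SubCond (G n) (k n) l}) ⟨l, h⟩,
    le_trans (by exact_mod_cast hle) b3⟩

theorem ev_sub
    (h1 : Tendsto (fun n => (k n : ℝ) / Real.log (Fintype.card (G n))) atTop atTop)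
    (h2 : Tendsto (fun n => Real.log (k n) / Real.log (Fintype.card (G n))) atTop (𝓝 0))
    (M K : ℕ) : ∀ᶠ n in atTop, M ≤ subTime (G n) (k n) ∧ K * subTime (G n) (k n) ≤ k n ∧
      SubCond (G n) (k n) (subTime (G n) (k n)) := by
  have e2 := h2.eventually (gt_mem_nhds (show (0 : ℝ) < 1 / ((M : ℝ) + 1) by positivity))
  filter_upwards [sub_le_cut G k h1 h2 1 one_pos, ev_spec G k h1 h2 0 (2 * K), e2,
    ev_regime G k h1 h2 1 le_rfl] with n ⟨a1, a2⟩ ⟨_, _, a3, _⟩ a4 ⟨b1, _, b3, _⟩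
  refine ⟨?_, ?_, a1⟩
  · have b4 : Real.log (Fintype.card (G n)) ≤ subTime (G n) (k n) * Real.log (k n) := by
      rw [← Real.log_pow]
      exact Real.log_le_log (by exact_mod_cast Fintype.card_pos) (by exact_mod_cast a1.1)
    rw [div_lt_div_iff₀ (by linarith) (by positivity), one_mul] at a4
    have : (M : ℝ) ≤ subTime (G n) (k n) := by
      by_contra h
      push Not at h
      nlinarith
    exact_mod_cast this
  · have h3 : subTime (G n) (k n) ≤ 2 * cutTime (G n) (k n) := by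
      have : (subTime (G n) (k n) : ℝ) ≤ 2 * cutTime (G n) (k n) := by linarith
      exact_mod_cast this
    calc K * subTime (G n) (k n) ≤ K * (2 * cutTime (G n) (k n)) := Nat.mul_le_mul_left _ h3
      _ = 2 * K * cutTime (G n) (k n) := by ring
      _ ≤ k n := a3

theorem deg_le_sub {C : ∀ (G : Type) [Group G], Prop} (hC : GB C) (hG : ∀ n, C (G n))
    (h1 : Tendsto (fun n => (k n : ℝ) / Real.log (Fintype.card (G n))) atTop atTop)
    (h2 : Tendsto (fun n => Real.log (k n) / Real.log (Fintype.card (G n))) atTop (𝓝 0))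
    (ε : ℝ) (hε : 0 < ε) :
    ∀ᶠ n in atTop, (degTime 1 (G n) (k n) : ℝ) ≤ (1 + ε) * subTime (G n) (k n) := by
  obtain ⟨e, he, _, M', hM'⟩ := exists_between_nat ε hε
  obtain ⟨M, K, hMK⟩ := fin_sub_deg hC e he
  filter_upwards [ev_sub G k h1 h2 (max M M') K] with n ⟨a1, a2, a3⟩
  obtain ⟨l, b1, b2, b3⟩ := hM' _ (le_trans (le_max_right _ _) a1)
  have h := hMK (G n) (hG n) (k n) _ l (le_trans (le_max_left _ _) a1) a2 b1 b2 a3
  have hle : degTime 1 (G n) (k n) ≤ l :=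
    Nat.sInf_le (s := {l : ℕ | DegCond 1 (G n) (k n) l}) h
  exact le_trans (by exact_mod_cast hle) b3

/-- two sided bounds give equivalence -/
theorem equiv_of_bounds (a b : ℕ → ℝ) (hb : ∀ᶠ n in atTop, 0 < b n)
    (h : ∀ e : ℝ, 0 < e → ∀ᶠ n in atTop, a n ≤ (1 + e) * b n ∧ b n ≤ (1 + e) * a n) :
    Asymptotics.IsEquivalent atTop a b := by
  rw [Asymptotics.isEquivalent_iff_tendsto_one (hb.mono (fun n hn => hn.ne')), tendsto_order]
  constructor
  · intro x hx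
    filter_upwards [hb, h ((1 - x) / 2) (by linarith)] with n b0 ⟨_, b2⟩
    show x < a n / b n
    rw [lt_div_iff₀ b0]
    have h0 : 0 < 1 + (1 - x) / 2 := by linarith
    refine lt_of_mul_lt_mul_left (a := 1 + (1 - x) / 2) ?_ h0.le
    have h3 : 0 < (1 - x) * (2 - x) * b n := by
      have : 0 < 1 - x := by linarith
      have : 0 < 2 - x := by linarith
      positivity
    nlinarith
  · intro x hx
    filter_upwards [hb, h ((x - 1) / 2) (by linarith)] with n b0 ⟨b1, _⟩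
    show a n / b n < x
    rw [div_lt_iff₀ b0]
    nlinarith [mul_pos (sub_pos.mpr hx) b0]

theorem cut_equiv_sub {C : ∀ (G : Type) [Group G], Prop} (hC : GB C) (hG : ∀ n, C (G n))
    (h1 : Tendsto (fun n => (k n : ℝ) / Real.log (Fintype.card (G n))) atTop atTop)
    (h2 : Tendsto (fun n => Real.log (k n) / Real.log (Fintype.card (G n))) atTop (𝓝 0)) :
    Asymptotics.IsEquivalent atTop (fun n => (cutTime (G n) (k n) : ℝ))
      (fun n => (subTime (G n) (k n) : ℝ)) := by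
  refine equiv_of_bounds _ _ ?_ (fun e he => ?_)
  · filter_upwards [ev_sub G k h1 h2 1 0] with n hn
    exact_mod_cast hn.1
  · obtain ⟨u, hu, hu1, hue⟩ : ∃ u : ℝ, 0 < u ∧ u ≤ 1 ∧ 3 * u ≤ e :=
      ⟨min 1 (e / 3), lt_min one_pos (by linarith), min_le_left _ _,
        by linarith [min_le_right 1 (e / 3)]⟩
    filter_upwards [cut_le_deg G k h1 h2 u hu, deg_le_sub G k hC hG h1 h2 u hu,
      sub_le_cut G k h1 h2 e he] with n a1 a2 a3
    refine ⟨?_, a3.2⟩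
    have h0 : (0 : ℝ) ≤ subTime (G n) (k n) := Nat.cast_nonneg _
    have h3 := a1.trans (mul_le_mul_of_nonneg_left a2 (by linarith))
    have h4 : (1 + u) * (1 + u) ≤ 1 + e := by nlinarith
    nlinarith [mul_le_mul_of_nonneg_right h4 h0]

/-- the cutoff times are exactly the sequences equivalent to `subTime` -/
theorem sub_cutoff {C : ∀ (G : Type) [Group G], Prop} (hC : GB C) (hG : ∀ n, C (G n))
    (h1 : Tendsto (fun n => (k n : ℝ) / Real.log (Fintype.card (G n))) atTop atTop)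
    (h2 : Tendsto (fun n => Real.log (k n) / Real.log (Fintype.card (G n))) atTop (𝓝 0))
    (τ : ℕ → ℝ) (hτ : ∀ n, 0 ≤ τ n) :
    CutoffAt G k τ ↔
      Asymptotics.IsEquivalent atTop τ (fun n => (subTime (G n) (k n) : ℝ)) := by
  have h := cut_equiv_sub G k hC hG h1 h2
  rw [universal_cutoff G k h1 h2 τ hτ]
  exact ⟨fun a => a.trans h, fun a => a.trans h.symm⟩

end Pool.Agent.Lib.MP_d87a8f_pr.P
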