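import Mathlib
import Pool.Agent.Lib.MP_d87a8f_pr.P.Sub
import Pool.Agent.Lib.MP_d87a8f_pr.P.StarDefs

/-!
The cutoff time as a maximum of entropic times over subgroups.
-/

namespace Pool.Agent.Lib.MP_d87a8f_pr.P

open Finset Filter Topology Pool.Agent.Lib.MP_d87a8f_pr.U Pool.Agent.Lib.MP_d87a8f_pr.Q

/-- the entropic time solves its equation -/
theorem ent_mem (k N : ℕ) (hk : 0 < k) (h : 4 * Real.log N ≤ k) :
    0 ≤ entTime k N ∧ (k : ℝ) * poissonEntropy (entTime k N / k) = Real.log N := by
  have hk0 : (0 : ℝ) < k := by exact_mod_cast hk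
  have hc : ContinuousOn (fun t : ℝ => (k : ℝ) * poissonEntropy (t / k)) (Set.Icc 0 (k / 2)) := by
    refine continuousOn_const.mul (continuousOn_entropy.comp (by fun_prop) ?_)
    intro t ht
    exact ⟨div_nonneg ht.1 hk0.le, by rw [div_le_one hk0]; linarith [ht.2]⟩
  have hS : {t : ℝ | 0 ≤ t ∧ (k : ℝ) * poissonEntropy (t / k) = Real.log N} =
      Set.Icc 0 ((k : ℝ) / 2) ∩
        (fun t : ℝ => (k : ℝ) * poissonEntropy (t / k)) ⁻¹' {Real.log N} := by
    ext t
    constructor
    · rintro ⟨a, b⟩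
      exact ⟨⟨a, by linarith [time_le_two k _ t hk h a b]⟩, b⟩
    · rintro ⟨⟨a, _⟩, b⟩
      exact ⟨a, b⟩
  have hcl : IsClosed {t : ℝ | 0 ≤ t ∧ (k : ℝ) * poissonEntropy (t / k) = Real.log N} := by
    rw [hS]
    exact hc.preimage_isClosed_of_isClosed isClosed_Icc isClosed_singleton
  exact hcl.csInf_mem (exists_time k _ (Real.log_natCast_nonneg _) hk h) ⟨0, fun t ht => ht.1⟩

theorem log_ab_sub {G : Type} [Group G] [Fintype G] (H : Subgroup G) :
    Real.log (Nat.card (Abelianization H)) ≤ Real.log (Fintype.card G) := by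
  classical
  refine (log_ab_le H).trans (Real.log_le_log (by exact_mod_cast Fintype.card_pos) ?_)
  exact_mod_cast Fintype.card_subtype_le _

theorem ab_pos_sub {G : Type} [Group G] [Fintype G] (H : Subgroup G) :
    0 < Nat.card (Abelianization H) := by
  classical
  exact ab_pos H

theorem ent_le_star {G : Type} [Group G] [Fintype G] (k : ℕ) (H : Subgroup G) :
    entTime (k * H.index) (Nat.card (Abelianization H)) ≤ starTime G k :=
  le_trans (le_ciSup (f := fun H : Subgroup G =>
    entTime (k * H.index) (Nat.card (Abelianization H))) (Set.finite_range _).bddAbove H)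
    (le_max_right _ _)

theorem star_le {G : Type} [Group G] [Fintype G] {k : ℕ} {x : ℝ}
    (h1 : Real.log (Fintype.card G) / Real.log k ≤ x)
    (h2 : ∀ H : Subgroup G, entTime (k * H.index) (Nat.card (Abelianization H)) ≤ x) :
    starTime G k ≤ x :=
  max_le h1 (ciSup_le h2)

theorem ent_mem_sub {G : Type} [Group G] [Fintype G] {k : ℕ} (hk : 0 < k)
    (h : 8 * Real.log (Fintype.card G) ≤ k) (H : Subgroup G) :
    0 < k * H.index ∧ (k : ℝ) ≤ (k * H.index : ℕ) ∧
    8 * Real.log (Nat.card (Abelianization H)) ≤ (k * H.index : ℕ) ∧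
    0 ≤ entTime (k * H.index) (Nat.card (Abelianization H)) ∧
    ((k * H.index : ℕ) : ℝ) * poissonEntropy
      (entTime (k * H.index) (Nat.card (Abelianization H)) / (k * H.index : ℕ)) =
      Real.log (Nat.card (Abelianization H)) := by
  have hi : 0 < H.index := Nat.pos_of_ne_zero H.index_ne_zero_of_finite
  have h0 : 0 < k * H.index := Nat.mul_pos hk hi
  have h1 : (k : ℝ) ≤ (k * H.index : ℕ) := by exact_mod_cast Nat.le_mul_of_pos_right _ hi
  have h2 := log_ab_sub H
  have h3 : 0 ≤ Real.log (Nat.card (Abelianization H)) := Real.log_natCast_nonneg _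
  exact ⟨h0, h1, by linarith, ent_mem _ _ h0 (by linarith)⟩

variable (G : ℕ → Type) [∀ n, Group (G n)] [∀ n, Fintype (G n)] [∀ n, DecidableEq (G n)]
  (k : ℕ → ℕ)

theorem star_le_sub
    (h1 : Tendsto (fun n => (k n : ℝ) / Real.log (Fintype.card (G n))) atTop atTop)
    (h2 : Tendsto (fun n => Real.log (k n) / Real.log (Fintype.card (G n))) atTop (𝓝 0)) :
    ∀ᶠ n in atTop, starTime (G n) (k n) ≤ subTime (G n) (k n) := by
  filter_upwards [ev_sub G k h1 h2 1 1, ev_regime G k h1 h2 8 (by norm_num)] with n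
    ⟨a1, _, a3, a4⟩ ⟨b1, b2, b3, _⟩
  set l := subTime (G n) (k n)
  have hl : (0 : ℝ) < l := by exact_mod_cast a1
  have hk : (0 : ℝ) < k n := by linarith
  refine star_le ?_ (fun H => ?_)
  · rw [div_le_iff₀ (by linarith)]
    have h4 : (Fintype.card (G n) : ℝ) ≤ (k n : ℝ) ^ l := by exact_mod_cast a3
    have h5 : (0 : ℝ) < Fintype.card (G n) := by exact_mod_cast Fintype.card_pos
    have h6 := Real.log_le_log h5 h4
    rw [Real.log_pow] at h6
    exact h6
  · obtain ⟨c0, c1, c2, c3, c4⟩ := ent_mem_sub (by exact_mod_cast hk) b2 H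
    refine time_le_of _ _ _ _ c0 c2 c3 c4 hl ?_
    have h3 := a4 H
    generalize k n * H.index = y at c0 h3 ⊢
    have hy : (0 : ℝ) < y := by exact_mod_cast c0
    have h4 : (Nat.card (Abelianization H) : ℝ) * (l : ℝ) ^ l ≤ (y : ℝ) ^ l := by
      exact_mod_cast h3
    have h5 : (0 : ℝ) < Nat.card (Abelianization H) := by exact_mod_cast ab_pos_sub H
    have h6 := Real.log_le_log (by positivity) h4
    rw [Real.log_mul h5.ne' (by positivity), Real.log_pow, Real.log_pow] at h6
    rw [Real.log_div hy.ne' hl.ne']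
    linarith

omit [∀ n, DecidableEq (G n)] in
theorem sub_le_star
    (h1 : Tendsto (fun n => (k n : ℝ) / Real.log (Fintype.card (G n))) atTop atTop)
    (h2 : Tendsto (fun n => Real.log (k n) / Real.log (Fintype.card (G n))) atTop (𝓝 0))
    (ε : ℝ) (hε : 0 < ε) :
    ∀ᶠ n in atTop, (subTime (G n) (k n) : ℝ) ≤ (1 + ε) * starTime (G n) (k n) := by
  obtain ⟨e, he0, he1, heε⟩ : ∃ e : ℝ, 0 < e ∧ e < 1 ∧ 2 * e ≤ ε :=
    ⟨min (1 / 2) (ε / 2), lt_min (by norm_num) (by linarith),
      lt_of_le_of_lt (min_le_left _ _) (by norm_num), by linarith [min_le_right (1 / 2) (ε / 2)]⟩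
  obtain ⟨K, hK⟩ := room e 0 he0 he1 le_rfl
  have hK0 : (0 : ℝ) ≤ K := Nat.cast_nonneg _
  filter_upwards [ev_regime G k h1 h2 (5 * K + 8 + 16 / e)
    (by have : 0 < 16 / e := by positivity
        linarith)] with n ⟨b1, b2, b3, b4⟩
  set L := Real.log (Fintype.card (G n)) with hL
  set lk := Real.log (k n) with hlk
  have h16 : 0 < 16 / e := by positivity
  have he16 : e * (16 / e) = 16 := by field_simp
  have hL8 : 8 ≤ L := by linarith
  have hlk8 : 8 ≤ lk := by linarith
  have hk8 : 8 * L ≤ k n := by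
    have := mul_nonneg (show 0 ≤ 5 * K + 16 / e by positivity) (show 0 ≤ L by linarith)
    linarith
  have hk : (0 : ℝ) < k n := by linarith
  have hkn : 0 < k n := by exact_mod_cast hk
  have hq2 : L / lk ≤ L := div_le_self (by linarith) (by linarith)
  have ht2L : starTime (G n) (k n) ≤ 2 * L := by
    refine star_le (by linarith) (fun H => ?_)
    obtain ⟨c0, c1, c2, c3, c4⟩ := ent_mem_sub hkn hk8 H
    have q0 : 0 ≤ Real.log (Nat.card (Abelianization H)) := Real.log_natCast_nonneg _
    have q1 := time_le_two _ _ _ c0 (by linarith) c3 c4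
    have q2 := log_ab_sub H
    linarith
  have hq : L / lk ≤ starTime (G n) (k n) := le_max_left _ _
  have hst := fun H : Subgroup (G n) => ent_le_star (k n) H
  set t := starTime (G n) (k n) with htdef
  have hq1 : 16 / e ≤ L / lk := by
    rw [le_div_iff₀ (by linarith)]
    have := mul_nonneg (show 0 ≤ 5 * (K : ℝ) + 8 by positivity) (show 0 ≤ lk by linarith)
    linarith
  have htpos : 0 < t := by linarith
  set l := ⌈(1 + e) * t⌉₊ with hldef
  have hl1 : (1 + e) * t ≤ l := Nat.le_ceil _
  have hl2 : (l : ℝ) ≤ (1 + e) * t + 1 := (Nat.ceil_lt_add_one (by positivity)).le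
  have het : 16 ≤ e * t := by
    have := mul_le_mul_of_nonneg_left (hq1.trans hq) he0.le
    linarith
  have het1 : e * t ≤ t := mul_le_of_le_one_left htpos.le he1.le
  have hl3 : (l : ℝ) ≤ (1 + ε) * t := by
    have := mul_le_mul_of_nonneg_right heε htpos.le
    linarith
  have hl5 : (l : ℝ) ≤ 5 * L := by linarith
  have hlpos : (0 : ℝ) < l := by linarith
  have hln : 0 < l := by exact_mod_cast hlpos
  have hLl : (1 + e) * L ≤ l * lk := by
    have q1 : L ≤ t * lk := by rwa [div_le_iff₀ (by linarith)] at hq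
    have q2 := mul_le_mul_of_nonneg_right hl1 (show 0 ≤ lk by linarith)
    have q3 := mul_le_mul_of_nonneg_left q1 (show 0 ≤ 1 + e by linarith)
    linarith
  have hKl : (K : ℝ) * l ≤ k n := by
    have q1 := mul_le_mul_of_nonneg_left hl5 hK0
    have q2 := mul_nonneg (show 0 ≤ 8 + 16 / e by linarith) (show 0 ≤ L by linarith)
    linarith
  have hcond : SubCond (G n) (k n) l := by
    refine ⟨?_, fun H => ?_⟩
    · have := nat_of_log (W := Fintype.card (G n)) (l := 1) (y := k n ^ l) one_pos (by positivity)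
        (by push_cast; rw [Real.log_pow]; simp only [Real.log_one]
            have := mul_nonneg he0.le (show 0 ≤ L by linarith)
            linarith)
      simpa using this
    · obtain ⟨c0, c1, c2, c3, c4⟩ := ent_mem_sub hkn hk8 H
      refine nat_of_log hln c0 ?_
      have h4 := hK _ _ _ l hlpos (hKl.trans c1) c3 c4
        (le_trans (mul_le_mul_of_nonneg_left (hst H) (by linarith)) hl1)
      have hy : (0 : ℝ) < (k n * H.index : ℕ) := by exact_mod_cast c0
      rw [Real.log_div hy.ne' hlpos.ne'] at h4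
      linarith
  have hle : subTime (G n) (k n) ≤ l := Nat.sInf_le (s := {l : ℕ | SubCond (G n) (k n) l}) hcond
  have : (subTime (G n) (k n) : ℝ) ≤ l := by exact_mod_cast hle
  linarith

theorem star_equiv_sub
    (h1 : Tendsto (fun n => (k n : ℝ) / Real.log (Fintype.card (G n))) atTop atTop)
    (h2 : Tendsto (fun n => Real.log (k n) / Real.log (Fintype.card (G n))) atTop (𝓝 0)) :
    Asymptotics.IsEquivalent atTop (fun n => starTime (G n) (k n))
      (fun n => (subTime (G n) (k n) : ℝ)) := by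
  refine equiv_of_bounds _ _ ?_ (fun e he => ?_)
  · filter_upwards [ev_sub G k h1 h2 1 0] with n hn
    exact_mod_cast hn.1
  · filter_upwards [star_le_sub G k h1 h2, sub_le_star G k h1 h2 e he] with n a1 a2
    refine ⟨?_, a2⟩
    have h0 : (0 : ℝ) ≤ subTime (G n) (k n) := Nat.cast_nonneg _
    nlinarith [mul_nonneg he.le h0]

/-- the cutoff times are exactly the sequences equivalent to `starTime` -/
theorem star_cutoff_of {C : ∀ (G : Type) [Group G], Prop} (hC : GB C) (hG : ∀ n, C (G n))
    (h1 : Tendsto (fun n => (k n : ℝ) / Real.log (Fintype.card (G n))) atTop atTop)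
    (h2 : Tendsto (fun n => Real.log (k n) / Real.log (Fintype.card (G n))) atTop (𝓝 0))
    (τ : ℕ → ℝ) (hτ : ∀ n, 0 ≤ τ n) :
    CutoffAt G k τ ↔ Asymptotics.IsEquivalent atTop τ (fun n => starTime (G n) (k n)) := by
  have h := star_equiv_sub G k h1 h2
  rw [sub_cutoff G k hC hG h1 h2 τ hτ]
  exact ⟨fun a => a.trans h.symm, fun a => a.trans h⟩

end Pool.Agent.Lib.MP_d87a8f_pr.P
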