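import Mathlib
import Pool.Agent.Lib.MP_d87a8f_pr.P.Star
import Pool.Agent.Lib.MP_d87a8f_pr.M.Main
import Pool.Agent.Lib.MP_d87a8f_pr.M.Low
import Pool.Agent.Lib.MP_d87a8f_pr.M.Factor

/-!
From the two counting steps to the group theoretic input of the cutoff theorem.
-/

namespace Pool.Agent.Lib.MP_d87a8f_pr.P

open Finset Filter Topology Pool.Agent.Lib.MP_d87a8f_pr.E Pool.Agent.Lib.MP_d87a8f_pr.M

/-- the count of the characters whose kernel has the property `P` -/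
def HNC (P : ∀ (G : Type) [Group G], Subgroup G → Prop) : Prop :=
  ∃ c r : ℕ, ∀ (G : Type) [Group G] [Fintype G] (b D d m M Lam : ℕ) (s : Finset (G → ℂ)),
    1 ≤ b → 1 ≤ D → D ≤ 2 ^ b → 1 ≤ m → m ≤ 2 ^ b → Lam ≤ 2 ^ b → d ≤ D →
    Fintype.card G ≤ 2 ^ Lam → AbLe G d M → s ⊆ irr G d → (∀ χ ∈ s, P G (kerf χ)) →
    s.card ≤ 2 ^ (c * b * Lam / m + c * b ^ r * m * D) * M

open Classical in
/-- the step for the characters whose kernel does not have the property `P` -/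
def HE (P : ∀ (G : Type) [Group G], Subgroup G → Prop) : Prop :=
  ∃ c r : ℕ, ∀ (G : Type) [Group G] [Fintype G] (b D d Lam : ℕ) (s : Finset (G → ℂ)),
    1 ≤ b → 1 ≤ D → D ≤ 2 ^ b → Lam ≤ 2 ^ b → d ≤ D →
    Fintype.card G ≤ 2 ^ Lam → s ⊆ irr G d → (∀ χ ∈ s, ¬ P G (kerf χ)) → s.Nonempty →
    ∃ (L : Subgroup G) (θ : G → ℂ) (e : ℕ), L.Normal ∧ ⁅L, L⁆ = L ∧ Ir L θ ∧ θ 1 = e ∧ 2 ≤ e ∧
      s.card ≤ 2 ^ (c * b ^ r * D) * (s.filter fun χ => ip L χ θ ≠ 0).card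

/-- the numerical bound for a class `C` of groups -/
def NB (C : ∀ (G : Type) [Group G], Prop) : Prop :=
  ∃ c r : ℕ, ∀ (G : Type) [Group G] [Fintype G], C G → ∀ b d m M Lam : ℕ,
    1 ≤ b → 1 ≤ d → d ≤ 2 ^ b → 1 ≤ m → m ≤ 2 ^ b → Lam ≤ 2 ^ b →
    Fintype.card G * d ≤ 2 ^ Lam → AbLe G d M →
    lowDim G d ≤ 2 ^ (c * b * Lam / m + c * b ^ r * m * d) * M

/-- removes the power in the conclusion of the tensor trick -/
theorem of_pow {x N C F m Lam : ℕ} (hm : 1 ≤ m) (hN : N ≤ 2 ^ Lam)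
    (h : x ^ m ≤ N ^ C * F ^ m) : x ≤ 2 ^ (C * Lam / m + 1) * F := by
  refine (Nat.pow_le_pow_iff_left (n := m) (by omega)).1 (h.trans ?_)
  rw [mul_pow]
  refine Nat.mul_le_mul_right _ ?_
  calc N ^ C ≤ (2 ^ Lam) ^ C := Nat.pow_le_pow_left hN _
    _ = 2 ^ (C * Lam) := by rw [← pow_mul, mul_comm]
    _ ≤ 2 ^ ((C * Lam / m + 1) * m) := by
        refine Nat.pow_le_pow_right (by norm_num) ?_
        have := Nat.lt_div_mul_add (a := C * Lam) (b := m) (by omega)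
        rw [add_mul, one_mul]
        omega
    _ = _ := pow_mul _ _ _

theorem poly_small (A s : ℕ) : ∃ l0 : ℕ, ∀ l, l0 ≤ l → A * (Nat.log 2 l + 1) ^ s ≤ l := by
  have h := tendsto_pow_const_div_const_pow_of_one_lt s (r := 2) (by norm_num)
  have h1 := h.eventually (gt_mem_nhds (show (0 : ℝ) < 1 / (2 * (A : ℝ) + 2) by positivity))
  obtain ⟨B, hB⟩ := eventually_atTop.1 h1
  refine ⟨2 ^ B, fun l hl => ?_⟩
  have hl0 : l ≠ 0 := by
    have : 0 < 2 ^ B := by positivity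
    omega
  have h2 : B ≤ Nat.log 2 l := (Nat.le_log_iff_pow_le (by norm_num) hl0).2 hl
  have h3 := hB (Nat.log 2 l + 1) (by omega)
  have h4 : 2 ^ Nat.log 2 l ≤ l := Nat.pow_log_le_self 2 hl0
  generalize Nat.log 2 l = t at h3 h4 ⊢
  rw [div_lt_div_iff₀ (by positivity) (by positivity), one_mul, pow_succ (2 : ℝ)] at h3
  have h5 : ((2 : ℝ)) ^ t ≤ l := by exact_mod_cast h4
  have h6 : (0 : ℝ) ≤ ((t + 1 : ℕ) : ℝ) ^ s := by positivity
  have h7 : (A : ℝ) * ((t + 1 : ℕ) : ℝ) ^ s ≤ l := by nlinarith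
  exact_mod_cast h7

theorem gb_of_nb {C : ∀ (G : Type) [Group G], Prop} (h : NB C) : GB C := by
  obtain ⟨c, r, h⟩ := h
  intro n
  obtain ⟨l1, h1⟩ := poly_small ((2 * c * 3 ^ r * (6 * c * (n + 2) + 1)) ^ (n + 1))
    ((r + 2) * (n + 1))
  obtain ⟨l2, h2⟩ := poly_small (6 * c * (n + 2) + 1) 2
  refine ⟨l1 + l2 + n + 2, fun G _ _ hG l d M hl hc hd hdl hM => ?_⟩
  have a1 := h1 l (by omega)
  have a2 := h2 l (by omega)
  have a3 : l < 2 ^ (Nat.log 2 l + 1) := Nat.lt_pow_succ_log_self (by norm_num) l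
  have hβ : 1 ≤ Nat.log 2 l + 1 := by omega
  generalize Nat.log 2 l + 1 = β at a1 a2 a3 hβ
  have hl1 : 1 ≤ l := by omega
  have hdl' : d ≤ l := by
    refine (Nat.pow_le_pow_iff_left (n := n + 1) (by omega)).1 (hdl.trans ?_)
    exact Nat.pow_le_pow_right hl1 (by omega)
  have hb : 2 ^ β ≤ 2 ^ (3 * β) := Nat.pow_le_pow_right (by norm_num) (by omega)
  have hm : 6 * c * (n + 2) * β ^ 2 + 1 ≤ (6 * c * (n + 2) + 1) * β ^ 2 := by
    have : 1 ≤ β ^ 2 := Nat.one_le_pow _ _ hβ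
    rw [add_mul, one_mul]
    omega
  set m := 6 * c * (n + 2) * β ^ 2 + 1 with hmdef
  have hLam : β * (n + 2) * l ≤ 2 ^ (3 * β) := by
    have q1 : β ≤ 2 ^ β := Nat.lt_two_pow_self.le
    calc β * (n + 2) * l ≤ 2 ^ β * 2 ^ β * 2 ^ β :=
          Nat.mul_le_mul (Nat.mul_le_mul q1 (by omega)) a3.le
      _ = 2 ^ (3 * β) := by ring
  have hcard : Fintype.card G * d ≤ 2 ^ (β * (n + 2) * l) := by
    calc Fintype.card G * d ≤ l ^ ((n + 1) * l) * l := Nat.mul_le_mul hc hdl'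
      _ = l ^ ((n + 1) * l + 1) := (pow_succ _ _).symm
      _ ≤ l ^ ((n + 2) * l) := Nat.pow_le_pow_right hl1 (by nlinarith)
      _ ≤ (2 ^ β) ^ ((n + 2) * l) := Nat.pow_le_pow_left a3.le _
      _ = _ := by rw [← pow_mul, mul_assoc]
  have key := h G hG (3 * β) d m M (β * (n + 2) * l) (by omega) hd (by omega) (by omega)
    (by omega) hLam hcard hM
  refine key.trans (Nat.mul_le_mul_right _ ?_)
  have e1 : 2 * (c * (3 * β) * (β * (n + 2) * l) / m) ≤ l := by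
    refine (Nat.mul_div_le_mul_div_assoc _ _ _).trans ?_
    refine Nat.div_le_of_le_mul ?_
    calc 2 * (c * (3 * β) * (β * (n + 2) * l)) = 6 * c * (n + 2) * β ^ 2 * l := by ring
      _ ≤ m * l := Nat.mul_le_mul_right _ (by omega)
  have e2 : 2 * (c * (3 * β) ^ r * m * d) ≤ l := by
    refine (Nat.pow_le_pow_iff_left (n := n + 1) (by omega)).1 ?_
    have q1 : 2 * (c * (3 * β) ^ r * m) ≤
        2 * c * 3 ^ r * (6 * c * (n + 2) + 1) * β ^ (r + 2) := by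
      calc 2 * (c * (3 * β) ^ r * m) ≤ 2 * (c * (3 * β) ^ r * ((6 * c * (n + 2) + 1) * β ^ 2)) :=
            Nat.mul_le_mul_left _ (Nat.mul_le_mul_left _ hm)
        _ = _ := by ring
    have q2 : (2 * (c * (3 * β) ^ r * m)) ^ (n + 1) ≤ l := by
      refine (Nat.pow_le_pow_left q1 _).trans ?_
      rw [mul_pow, ← pow_mul]
      exact a1
    calc (2 * (c * (3 * β) ^ r * m * d)) ^ (n + 1)
        = (2 * (c * (3 * β) ^ r * m)) ^ (n + 1) * d ^ (n + 1) := by rw [← mul_pow]; ring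
      _ ≤ l * l ^ n := Nat.mul_le_mul q2 hdl
      _ = l ^ (n + 1) := (pow_succ' _ _).symm
  exact (Nat.pow_le_pow_right (by norm_num) (by omega)).trans
    (Nat.pow_le_pow_left (by norm_num : 2 ≤ 3) l)

theorem exp_mono {c c' r r' b x : ℕ} (hc : c ≤ c') (hr : r ≤ r') (hb : 1 ≤ b) :
    c * b ^ r * x ≤ c' * b ^ r' * x :=
  Nat.mul_le_mul_right _ (Nat.mul_le_mul hc (Nat.pow_le_pow_right hb hr))

/-- the class of groups in which every kernel has the property `P` -/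
theorem nb_of_nc {P : ∀ (G : Type) [Group G], Subgroup G → Prop} (h : HNC P)
    {C : ∀ (G : Type) [Group G], Prop} (hC : ∀ (G : Type) [Group G] [Finite G], C G → ∀ K, P G K) :
    NB C := by
  obtain ⟨c, r, h⟩ := h
  refine ⟨c + 2, r + 1, fun G _ _ hG b d m M Lam hb hd hdb hm hmb hL hc hM => ?_⟩
  classical
  have h1 := h G b d d m M Lam (irr G d) hb hd hdb hm hmb hL le_rfl
    ((Nat.le_mul_of_pos_right _ hd).trans hc) hM subset_rfl (fun χ _ => hC G hG _)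
  refine (lowDim_le_irr d).trans ((Nat.mul_le_mul (Nat.pow_le_pow_left hdb 2) h1).trans ?_)
  rw [← mul_assoc, ← pow_mul, ← pow_add]
  refine Nat.mul_le_mul_right _ (Nat.pow_le_pow_right (by norm_num) ?_)
  have q1 : c * b * Lam / m ≤ (c + 2) * b * Lam / m :=
    Nat.div_le_div_right (Nat.mul_le_mul_right _ (Nat.mul_le_mul_right _ (by omega)))
  have q2 : c * b ^ r * (m * d) ≤ c * b ^ (r + 1) * (m * d) := exp_mono le_rfl (by omega) hb
  have q3 : 2 * b ^ 1 * (m * d) ≤ 2 * b ^ (r + 1) * (m * d) := exp_mono le_rfl (by omega) hb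
  have q4 : 2 * b ^ 1 ≤ 2 * b ^ 1 * (m * d) := Nat.le_mul_of_pos_right _ (Nat.mul_pos hm hd)
  have q5 : (c + 2) * b ^ (r + 1) * m * d =
      c * b ^ (r + 1) * (m * d) + 2 * b ^ (r + 1) * (m * d) := by ring
  have q6 : c * b ^ r * m * d = c * b ^ r * (m * d) := by ring
  rw [pow_one] at q3 q4
  omega

theorem nb_all {P : ∀ (G : Type) [Group G], Subgroup G → Prop} (h : HNC P) (h' : HE P) :
    NB (fun _ _ => True) := by
  obtain ⟨c, r, h⟩ := h
  obtain ⟨c', r', h'⟩ := h'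
  refine ⟨c + 2 * c' + 6, r + r' + 2, fun G _ _ _ b d m M Lam hb hd hdb hm hmb hL hc hM => ?_⟩
  classical
  have h1 := main_ind P d Lam (2 ^ (c * b * Lam / m + c * b ^ r * m * d)) (2 ^ (c' * b ^ r' * d))
    (Nat.one_le_two_pow)
    (fun G1 _ _ d1 M1 s a1 a2 a3 a4 a5 => h G1 b d d1 m M1 Lam s hb hd hdb hm hmb hL a1 a2 a3 a4 a5)
    (fun G1 _ _ d1 s a1 a2 a3 a4 a5 => h' G1 b d d1 Lam s hb hd hdb hL a1 a2 a3 a4 a5)
    factor (b + 1) G d M (by rw [pow_succ]; omega) le_rfl hc hM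
  have h2 : 2 * 2 ^ (c' * b ^ r' * d) * d ≤ 2 ^ (1 + c' * b ^ r' * d + b) := by
    rw [pow_add, pow_add, pow_one]
    exact Nat.mul_le_mul_left _ hdb
  have h3 := h1.trans (Nat.mul_le_mul_right _ (Nat.mul_le_mul_right _
    (Nat.pow_le_pow_left h2 (b + 1))))
  refine (lowDim_le_irr d).trans ((Nat.mul_le_mul (Nat.pow_le_pow_left hdb 2) h3).trans ?_)
  rw [← mul_assoc, ← pow_mul, ← pow_mul, ← pow_add, ← pow_add]
  refine Nat.mul_le_mul_right _ (Nat.pow_le_pow_right (by norm_num) ?_)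
  have hmd : 1 ≤ m * d := Nat.mul_pos hm hd
  have q1 : c * b * Lam / m ≤ (c + 2 * c' + 6) * b * Lam / m :=
    Nat.div_le_div_right (Nat.mul_le_mul_right _ (Nat.mul_le_mul_right _ (by omega)))
  have q2 : c * b ^ r * (m * d) ≤ c * b ^ (r + r' + 2) * (m * d) := exp_mono le_rfl (by omega) hb
  have q3 : 6 * b ^ 2 * (m * d) ≤ 6 * b ^ (r + r' + 2) * (m * d) := exp_mono le_rfl (by omega) hb
  have q4 : 6 * b ^ 2 ≤ 6 * b ^ 2 * (m * d) := Nat.le_mul_of_pos_right _ hmd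
  have q5 : (c + 2 * c' + 6) * b ^ (r + r' + 2) * m * d = c * b ^ (r + r' + 2) * (m * d) +
      2 * c' * b ^ (r + r' + 2) * (m * d) + 6 * b ^ (r + r' + 2) * (m * d) := by ring
  have q6 : c * b ^ r * m * d = c * b ^ r * (m * d) := by ring
  have q7 : 2 * c' * b ^ (r' + 1) * (m * d) ≤ 2 * c' * b ^ (r + r' + 2) * (m * d) :=
    exp_mono le_rfl (by omega) hb
  have q8 : c' * b ^ r' * d * (b + 1) ≤ 2 * c' * b ^ (r' + 1) * (m * d) := by
    calc c' * b ^ r' * d * (b + 1) ≤ c' * b ^ r' * (m * d) * (2 * b) :=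
          Nat.mul_le_mul (Nat.mul_le_mul_left _ (Nat.le_mul_of_pos_left _ hm)) (by omega)
      _ = _ := by ring
  have q9 : (1 + c' * b ^ r' * d + b) * (b + 1) = c' * b ^ r' * d * (b + 1) + (b + 1) ^ 2 := by ring
  have q10 : b * 2 + (b + 1) ^ 2 ≤ 6 * b ^ 2 := by nlinarith
  omega

variable (G : ℕ → Type) [∀ n, Group (G n)] [∀ n, Fintype (G n)] [∀ n, DecidableEq (G n)]
  (k : ℕ → ℕ)

/-- the cutoff theorem for all groups from the two counting steps -/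
theorem cutoff_all {P : ∀ (G : Type) [Group G], Subgroup G → Prop} (h : HNC P) (h' : HE P)
    (h1 : Tendsto (fun n => (k n : ℝ) / Real.log (Fintype.card (G n))) atTop atTop)
    (h2 : Tendsto (fun n => Real.log (k n) / Real.log (Fintype.card (G n))) atTop (𝓝 0))
    (τ : ℕ → ℝ) (hτ : ∀ n, 0 ≤ τ n) :
    CutoffAt G k τ ↔ Asymptotics.IsEquivalent atTop τ (fun n => starTime (G n) (k n)) :=
  star_cutoff_of G k (gb_of_nb (nb_all h h')) (fun _ => trivial) h1 h2 τ hτ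

end Pool.Agent.Lib.MP_d87a8f_pr.P
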