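import Mathlib
import Pool.Agent.Lib.MP_d87a8f_pr.P.Glue
import Pool.Agent.Lib.MP_d87a8f_pr.S.Fam

/-!
The choice of the constants in the count for kernels with Abelian central chief factors.
-/

namespace Pool.Agent.Lib.MP_d87a8f_pr.P

open Finset Filter Topology Pool.Agent.Lib.MP_d87a8f_pr.E Pool.Agent.Lib.MP_d87a8f_pr.M

theorem hnc : HNC S.NC := by
  refine ⟨3929, 5, fun G _ _ b D d m M Lam s hb hD hDb hm hmb _ hd hG hM hs h => ?_⟩
  have hC : 7 * b ^ 2 * D * m * 2 ^ (14 * b) < 3 ^ (14 * b) := by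
    have q1 : b ≤ 2 ^ b := Nat.lt_two_pow_self.le
    have q2 : 7 ≤ 8 ^ b := le_trans (by norm_num) (Nat.le_self_pow (by omega) 8)
    calc 7 * b ^ 2 * D * m * 2 ^ (14 * b) ≤ 8 ^ b * (2 ^ b) ^ 2 * 2 ^ b * 2 ^ b * 2 ^ (14 * b) :=
          Nat.mul_le_mul_right _ (Nat.mul_le_mul (Nat.mul_le_mul
            (Nat.mul_le_mul q2 (Nat.pow_le_pow_left q1 2)) hDb) hmb)
      _ = 8 ^ (7 * b) := by
          rw [show (8 : ℕ) = 2 ^ 3 by norm_num]
          simp only [← pow_mul, ← pow_add]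
          congr 1
          ring
      _ < 9 ^ (7 * b) := Nat.pow_lt_pow_left (by norm_num) (by omega)
      _ = 3 ^ (14 * b) := by
          rw [show (9 : ℕ) = 3 ^ 2 by norm_num, ← pow_mul]
          congr 1
          ring
  have hu : Lam * (14 * b) ≤ (14 * b * Lam / m + 1) * m := by
    have := Nat.lt_div_mul_add (a := 14 * b * Lam) (b := m) (by omega)
    rw [add_mul, one_mul, mul_comm Lam]
    omega
  refine (S.nc_level hb hDb (by omega) hC hu G d M s hd hG hM hs h).trans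
    (Nat.mul_le_mul_right _ (Nat.pow_le_pow_right (by norm_num) ?_))
  unfold S.loss
  have hmd : 1 ≤ m * D := Nat.mul_pos hm hD
  have q1 : 14 * b * Lam / m ≤ 3929 * b * Lam / m :=
    Nat.div_le_div_right (Nat.mul_le_mul_right _ (Nat.mul_le_mul_right _ (by omega)))
  have q2 : 8 * b ^ 2 * (35 * b ^ 2 * D * m * (14 * b) + 1) =
      3920 * (b ^ 5 * (m * D)) + 8 * b ^ 2 := by ring
  have q3 : 3929 * b ^ 5 * m * D = 3929 * (b ^ 5 * (m * D)) := by ring
  have q4 : b ^ 2 ≤ b ^ 5 * (m * D) :=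
    (Nat.pow_le_pow_right hb (by norm_num)).trans (Nat.le_mul_of_pos_right _ hmd)
  have q5 : 1 ≤ b ^ 2 := Nat.one_le_pow _ _ hb
  omega

variable (G : ℕ → Type) [∀ n, Group (G n)] [∀ n, Fintype (G n)] [∀ n, DecidableEq (G n)]
  (k : ℕ → ℕ)

/-- solvable groups -/
theorem cutoff_solv (hG : ∀ n, Group.IsSolvable (G n))
    (h1 : Tendsto (fun n => (k n : ℝ) / Real.log (Fintype.card (G n))) atTop atTop)
    (h2 : Tendsto (fun n => Real.log (k n) / Real.log (Fintype.card (G n))) atTop (𝓝 0))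
    (τ : ℕ → ℝ) (hτ : ∀ n, 0 ≤ τ n) :
    CutoffAt G k τ ↔ Asymptotics.IsEquivalent atTop τ (fun n => starTime (G n) (k n)) :=
  star_cutoff_of G k (C := fun H _ => Group.IsSolvable H)
    (gb_of_nb (nb_of_nc hnc (fun _ _ _ h K => @S.nc_of_solvable _ _ _ h K))) hG h1 h2 τ hτ

end Pool.Agent.Lib.MP_d87a8f_pr.P
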