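import Mathlib
import Pool.Agent.Lib.MP_d87a8f_pr.P.Hnc

/-!
The cutoff theorem for all groups from the step for a nonabelian central chief factor.
-/

namespace Pool.Agent.Lib.MP_d87a8f_pr.P

open Finset Filter Topology Pool.Agent.Lib.MP_d87a8f_pr.E Pool.Agent.Lib.MP_d87a8f_pr.M

theorem he_of_stepE {c r : ℕ} (h : ∀ b D Lam : ℕ, 1 ≤ b → 1 ≤ D → D ≤ 2 ^ b → 1 ≤ Lam →
    S.StepE D Lam (Lam * 2 ^ (c * b ^ r * D))) : HE S.NC := by
  refine ⟨c + 2, r + 1, fun G _ _ b D d Lam s hb hD hDb hL hd hG hs h1 h2 => ?_⟩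
  obtain ⟨L, θ, e, a1, a2, a3, a4, a5, a6⟩ := h b D (Lam + 1) hb hD hDb (by omega) G d s hd
    (hG.trans (Nat.pow_le_pow_right (by norm_num) (by omega))) hs h1 h2
  refine ⟨L, θ, e, a1, a2, a3, a4, a5, a6.trans (Nat.mul_le_mul_right _ ?_)⟩
  have q0 : Lam + 1 ≤ 2 ^ (b + 1) := by
    have : 0 < 2 ^ b := by positivity
    rw [pow_succ]
    omega
  refine (Nat.mul_le_mul_right _ q0).trans ?_
  rw [← pow_add]
  refine Nat.pow_le_pow_right (by norm_num) ?_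
  have q1 : c * b ^ r * D ≤ c * b ^ (r + 1) * D := exp_mono le_rfl (by omega) hb
  have q2 : 2 * b ^ 1 * D ≤ 2 * b ^ (r + 1) * D := exp_mono le_rfl (by omega) hb
  have q3 : 2 * b ^ 1 ≤ 2 * b ^ 1 * D := Nat.le_mul_of_pos_right _ hD
  have q4 : (c + 2) * b ^ (r + 1) * D = c * b ^ (r + 1) * D + 2 * b ^ (r + 1) * D := by ring
  rw [pow_one] at q2 q3
  omega

variable (G : ℕ → Type) [∀ n, Group (G n)] [∀ n, Fintype (G n)] [∀ n, DecidableEq (G n)]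
  (k : ℕ → ℕ)

theorem cutoff_of_stepE {c r : ℕ} (h : ∀ b D Lam : ℕ, 1 ≤ b → 1 ≤ D → D ≤ 2 ^ b → 1 ≤ Lam →
      S.StepE D Lam (Lam * 2 ^ (c * b ^ r * D)))
    (h1 : Tendsto (fun n => (k n : ℝ) / Real.log (Fintype.card (G n))) atTop atTop)
    (h2 : Tendsto (fun n => Real.log (k n) / Real.log (Fintype.card (G n))) atTop (𝓝 0))
    (τ : ℕ → ℝ) (hτ : ∀ n, 0 ≤ τ n) :
    CutoffAt G k τ ↔ Asymptotics.IsEquivalent atTop τ (fun n => starTime (G n) (k n)) :=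
  cutoff_all G k hnc (he_of_stepE h) h1 h2 τ hτ

end Pool.Agent.Lib.MP_d87a8f_pr.P
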