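import Mathlib
import Pool.Agent.Lib.MP_d87a8f_pr.P.Star

/-!
A sequence of dihedral groups for which the term of the whole group is not the largest one.
-/

namespace Pool.Agent.Lib.MP_d87a8f_pr.P

open Finset Filter Topology Pool.Agent.Lib.MP_d87a8f_pr.U Pool.Agent.Lib.MP_d87a8f_pr.Q

theorem exists_rot (n : ℕ) [NeZero n] : ∃ H : Subgroup (DihedralGroup n),
    H.index = 2 ∧ Nat.card (Abelianization H) = n := by
  have h0 : 0 < n := Nat.pos_of_ne_zero (NeZero.ne n)
  have h1 : Nat.card (Subgroup.zpowers (DihedralGroup.r 1 : DihedralGroup n)) = n := by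
    rw [Nat.card_zpowers, DihedralGroup.orderOf_r_one]
  refine ⟨Subgroup.zpowers (DihedralGroup.r 1), ?_, ?_⟩
  · have h2 := (Subgroup.zpowers (DihedralGroup.r 1 : DihedralGroup n)).index_mul_card
    rw [h1, DihedralGroup.nat_card] at h2
    exact Nat.eq_of_mul_eq_mul_right h0 h2
  · have h2 : commutator (Subgroup.zpowers (DihedralGroup.r 1 : DihedralGroup n)) = ⊥ := by
      rw [commutator_def, Subgroup.commutator_eq_bot_iff_le_centralizer]
      rintro ⟨x, a, rfl⟩ _ ⟨y, b, rfl⟩ _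
      exact Subtype.ext (Commute.zpow_zpow_self _ b a)
    have h3 : Nat.card (commutator (Subgroup.zpowers (DihedralGroup.r 1 : DihedralGroup n))) *
        Nat.card (Abelianization (Subgroup.zpowers (DihedralGroup.r 1 : DihedralGroup n))) =
        Nat.card (Subgroup.zpowers (DihedralGroup.r 1 : DihedralGroup n)) :=
      (commutator _).card_mul_index
    rwa [h2, Subgroup.card_bot, one_mul, h1] at h3

theorem dih_h1 : Tendsto (fun m : ℕ => (((m + 3) * 2 ^ (m + 3) : ℕ) : ℝ) /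
    Real.log (Fintype.card (DihedralGroup (2 ^ (2 ^ (m + 3) - 1) - 1 + 1)))) atTop atTop := by
  have hl2 : 0 < Real.log 2 := Real.log_pos one_lt_two
  have hM : Tendsto (fun m : ℕ => ((m + 3 : ℕ) : ℝ)) atTop atTop :=
    tendsto_natCast_atTop_atTop.comp (tendsto_add_atTop_nat 3)
  simp only [log_card]
  refine (hM.atTop_div_const hl2).congr (fun m => ?_)
  push_cast
  field_simp

theorem dih_h2 : Tendsto (fun m : ℕ => Real.log (((m + 3) * 2 ^ (m + 3) : ℕ) : ℝ) /
    Real.log (Fintype.card (DihedralGroup (2 ^ (2 ^ (m + 3) - 1) - 1 + 1)))) atTop (𝓝 0) := by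
  have hl2 : 0 < Real.log 2 := Real.log_pos one_lt_two
  simp only [log_card]
  have h1 := (tendsto_pow_const_div_const_pow_of_one_lt 1 (one_lt_two (α := ℝ))).comp
    (tendsto_add_atTop_nat 3)
  have h2 := h1.const_mul 2
  rw [mul_zero] at h2
  refine squeeze_zero (fun m => div_nonneg (Real.log_natCast_nonneg _) (by positivity))
    (fun m => ?_) h2
  rw [div_le_iff₀ (by positivity)]
  refine (log_k_le (M := m + 3) (by omega)).trans (le_of_eq ?_)
  simp only [Function.comp]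
  field_simp

theorem dih_not_equiv : ¬ Asymptotics.IsEquivalent atTop
    (fun m : ℕ => max (entTime ((m + 3) * 2 ^ (m + 3))
        (Nat.card (Abelianization (DihedralGroup (2 ^ (2 ^ (m + 3) - 1) - 1 + 1)))))
      (Real.log (Fintype.card (DihedralGroup (2 ^ (2 ^ (m + 3) - 1) - 1 + 1))) /
        Real.log (((m + 3) * 2 ^ (m + 3) : ℕ) : ℝ)))
    (fun m => starTime (DihedralGroup (2 ^ (2 ^ (m + 3) - 1) - 1 + 1)) ((m + 3) * 2 ^ (m + 3))) := by
  intro h
  have h' := h.trans (star_equiv_sub (fun m => DihedralGroup (2 ^ (2 ^ (m + 3) - 1) - 1 + 1))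
    (fun m => (m + 3) * 2 ^ (m + 3)) dih_h1 dih_h2)
  have e1 := h'.isLittleO.bound (show (0 : ℝ) < 1 / 2 by norm_num)
  have e2 := ev_sub (fun m => DihedralGroup (2 ^ (2 ^ (m + 3) - 1) - 1 + 1))
    (fun m => (m + 3) * 2 ^ (m + 3)) dih_h1 dih_h2 1 0
  have hM : Tendsto (fun m : ℕ => ((m + 3 : ℕ) : ℝ)) atTop atTop :=
    tendsto_natCast_atTop_atTop.comp (tendsto_add_atTop_nat 3)
  have e3 := (Real.isLittleO_log_id_atTop.tendsto_div_nhds_zero.comp hM).eventually
    (gt_mem_nhds (show (0 : ℝ) < 1 / 16 by norm_num))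
  obtain ⟨m, a1, ⟨a2, -, -, a3⟩, a4, a5⟩ := (e1.and (e2.and (e3.and
    (eventually_ge_atTop 1)))).exists
  have hM4 : 4 ≤ m + 3 := by omega
  simp only [Function.comp, id, Pi.sub_apply] at a1 a4
  generalize m + 3 = M at a1 a2 a3 a4 hM4
  obtain ⟨H, b1, b2⟩ := exists_rot (2 ^ (2 ^ M - 1) - 1 + 1)
  have b3 := a3 H
  clear a3
  generalize subTime (DihedralGroup (2 ^ (2 ^ M - 1) - 1 + 1)) (M * 2 ^ M) = l at a1 a2 b3
  rw [b1, b2, Nat.sub_add_cancel Nat.one_le_two_pow] at b3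
  have hl2 : (1 : ℝ) / 2 ≤ Real.log 2 := by
    have := Real.log_two_gt_d9
    linarith
  have hl : (0 : ℝ) < l := by exact_mod_cast a2
  have hMr : (4 : ℝ) ≤ M := by exact_mod_cast hM4
  have h4M : 4 * M ≤ 2 ^ M := by
    clear a1 a4 b1 b2 b3 H hMr
    induction M, hM4 using Nat.le_induction with
    | base => norm_num
    | succ n hn ih => rw [pow_succ]; omega
  have h4M' : (4 : ℝ) * M ≤ 2 ^ M := by exact_mod_cast h4M
  have hk8 : 8 ≤ M * 2 ^ M := by nlinarith
  have hP : (0 : ℝ) < 2 ^ M := by positivity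
  have c1 : entTime (M * 2 ^ M)
      (Nat.card (Abelianization (DihedralGroup (2 ^ (2 ^ M - 1) - 1 + 1)))) ≤ 2 ^ M / M := by
    have q1 := card_abelianization_le (2 ^ (2 ^ M - 1) - 1 + 1)
    have q2 := ab_pos (DihedralGroup (2 ^ (2 ^ M - 1) - 1 + 1))
    generalize Nat.card (Abelianization (DihedralGroup (2 ^ (2 ^ M - 1) - 1 + 1))) = N at q1 q2
    have q3 : Real.log N ≤ 2 := by
      have r1 : Real.log N ≤ Real.log (2 ^ 2) :=
        Real.log_le_log (by exact_mod_cast q2) (by exact_mod_cast q1)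
      rw [Real.log_pow] at r1
      have := Real.log_two_lt_d9
      push_cast at r1
      linarith
    have q4 : (8 : ℝ) ≤ (M * 2 ^ M : ℕ) := by exact_mod_cast hk8
    obtain ⟨r1, r2⟩ := ent_mem (M * 2 ^ M) N (by omega) (by linarith)
    refine (entropic_time_le _ _ hk8 q2 q1 r1 r2).trans ?_
    rw [le_div_iff₀ (by linarith)]
    exact h4M'
  have c2 : Real.log (Fintype.card (DihedralGroup (2 ^ (2 ^ M - 1) - 1 + 1))) /
      Real.log ((M * 2 ^ M : ℕ) : ℝ) ≤ 2 ^ M / M := by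
    rw [log_card]
    have q1 := log_k_ge (M := M) (by omega)
    calc 2 ^ M * Real.log 2 / Real.log ((M * 2 ^ M : ℕ) : ℝ)
        ≤ 2 ^ M * Real.log 2 / (M * Real.log 2) :=
          div_le_div_of_nonneg_left (by positivity) (by positivity) q1
      _ = 2 ^ M / M := by field_simp
  have c3 : (l : ℝ) ≤ 2 * (2 ^ M / M) := by
    rw [Real.norm_eq_abs, Real.norm_eq_abs, abs_of_pos hl] at a1
    have := (abs_le.1 a1).1
    linarith [max_le c1 c2]
  have c4 : ((2 : ℝ) ^ (2 ^ M - 1)) * (l : ℝ) ^ l ≤ ((M : ℝ) * 2 ^ M * 2) ^ l := by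
    exact_mod_cast b3
  have c5 := Real.log_le_log (by positivity) c4
  rw [Real.log_mul (by positivity) (by positivity), Real.log_pow, Real.log_pow, Real.log_pow,
    Nat.cast_sub Nat.one_le_two_pow] at c5
  push_cast at c5
  have c6 := xlog_mono (k := (M : ℝ) * 2 ^ M * 2) hl c3 (by
    have q1 : (2 : ℝ) ^ M / M ≤ 2 ^ M := div_le_self hP.le (by linarith)
    nlinarith)
  have c7 : (M : ℝ) * 2 ^ M * 2 / (2 * (2 ^ M / M)) = M ^ 2 := by field_simp
  rw [c7, Real.log_pow, Real.log_div (by positivity) hl.ne'] at c6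
  have c8 : 2 * ((2 : ℝ) ^ M / M) * ((2 : ℕ) * Real.log M) = 4 * 2 ^ M * (Real.log M / M) := by
    push_cast
    field_simp
    ring
  rw [c8] at c6
  nlinarith [mul_lt_mul_of_pos_left a4 hP]

end Pool.Agent.Lib.MP_d87a8f_pr.P
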